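import Pool.Agent.H53.LK.Mzv
import Pool.Agent.H97.K2.RTY
import Pool.Agent.H68.K2.RMX
import Pool.Agent.H33.K2.REX
import Pool.Agent.H35.K2S.Dich

/-!
# Labels: the class is not empty

One value of the side information, rounded lines, a uniformly maximal part, a regular type.
-/

set_option autoImplicit false

namespace Pool.LK

open Finset Real
open Pool.Agent.H49.Ent Pool.Agent.H32.Dense Pool.STK Pool.KA Pool.KSAT Pool.K2S

variable {m J : ℕ}

theorem Mxl.mono' {F : Fam m J} {b a R τ τ' : ℝ} (h : τ ≤ τ') (hF : Mxl F b a R τ) :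
    Mxl F b a R τ' := by
  have hJ : τ * (J : ℝ) ≤ τ' * J := mul_le_mul_of_nonneg_right h (Nat.cast_nonneg J)
  obtain ⟨h1, h2⟩ := hF
  refine ⟨?_, h2.mono (by nlinarith only [hJ])⟩
  unfold Fam.Tm at h1 ⊢
  linarith only [hJ, h1]

namespace REXL

section

variable {Ω : Type} [Fintype Ω]

theorem cond_and {p : Ω → ℝ} (hp : ∀ ω, 0 ≤ p ω) (A B : Ω → Prop) :
    Pool.Agent.H49.Ent.cond (Pool.Agent.H49.Ent.cond p A True) B True =
      Pool.Agent.H49.Ent.cond p (fun ω => A ω ∧ B ω) True := by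
  classical
  have h1 : law (Pool.Agent.H49.Ent.cond p A True) B True =
      law p (fun ω => A ω ∧ B ω) True / law p A True := Pe_cond B
  funext ω
  have e1 : ∀ (q : Ω → ℝ) (E : Ω → Prop), E ω → Pool.Agent.H49.Ent.cond q E True ω =
      q ω / law q E True := by
    intro q E h
    unfold Pool.Agent.H49.Ent.cond
    exact if_pos (eq_true h)
  have e2 : ∀ (q : Ω → ℝ) (E : Ω → Prop), ¬ E ω → Pool.Agent.H49.Ent.cond q E True ω = 0 := by
    intro q E h
    unfold Pool.Agent.H49.Ent.cond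
    exact if_neg (fun h' => h (of_eq_true h'))
  by_cases hB : B ω
  · by_cases hA : A ω
    · rw [e1 _ B hB, e1 p A hA, e1 p (fun ω => A ω ∧ B ω) ⟨hA, hB⟩, h1]
      by_cases h0 : law p A True = 0
      · have h2 := le_law hp A ω
        have h3 : A ω = True := eq_true hA
        rw [h3, h0] at h2
        have h4 : p ω = 0 := le_antisymm h2 (hp ω)
        rw [h4]
        simp
      · rw [div_div_div_cancel_right₀ h0]
    · rw [e1 _ B hB, e2 p A hA, e2 p (fun ω => A ω ∧ B ω) (fun h => hA h.1), zero_div]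
  · rw [e2 _ B hB, e2 p (fun ω => A ω ∧ B ω) (fun h => hB h.2)]

theorem Pe_and {p : Ω → ℝ} (hp : IsLaw p) (A B : Ω → Prop) :
    Pe (Pool.Agent.H49.Ent.cond p A True) B * Pe p A = Pe p (fun ω => A ω ∧ B ω) := by
  rw [Pe_cond B]
  by_cases h0 : Pe p A = 0
  · have h2 : Pe p (fun ω => A ω ∧ B ω) ≤ Pe p A := Pe_mono hp fun ω h => h.1
    rw [h0] at h2
    have h3 := Pe_nonneg hp (fun ω => A ω ∧ B ω)
    rw [h0, mul_zero]
    linarith only [h2, h3]
  · rw [div_mul_cancel₀ _ h0]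

/-- Entropy under a restriction. -/
theorem H_cond_le {S : Type} {p : Ω → ℝ} (hp : IsLaw p) (A : Ω → Prop) {ρ : ℝ} (hρ : 0 < ρ)
    (hA : ρ ≤ Pe p A) (f : Ω → S) {B : ℝ} (hB : H p f ≤ B) :
    H (Pool.Agent.H49.Ent.cond p A True) f ≤ B / ρ := by
  classical
  have h1 : CH p f A = ∑ z ∈ univ.image A, law p A z * H (Pool.Agent.H49.Ent.cond p A z) f :=
    CH_eq_sum hp.nonneg f A
  have h2 : CH p f A ≤ H p f := by
    have h3 := CH_mono_cond hp.nonneg (X := f) (W' := A) (W := fun _ : Ω => ())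
      (fun _ _ _ _ _ => rfl)
    have h4 : CH p f (fun _ : Ω => ()) = H p f := by
      unfold CH
      rw [H_const hp.sum_one, sub_zero]
      refine H_congr hp.nonneg ?_ ?_
      · intro ω ω' _ _ h
        exact Prod.ext h rfl
      · intro ω ω' _ _ h
        exact (Prod.ext_iff.1 h).1
    linarith only [h3, h4]
  have hlaw : Pe p A = law p A True := rfl
  have hpos : 0 < law p A True := by linarith only [hρ, hA]
  have hmem : True ∈ univ.image A := by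
    by_contra hcon
    have := law_eq_zero_of_notMem p A hcon
    linarith only [hρ, hA, this]
  have hnn : ∀ z ∈ univ.image A, 0 ≤ law p A z * H (Pool.Agent.H49.Ent.cond p A z) f := by
    intro z _
    by_cases hz : law p A z = 0
    · rw [hz, zero_mul]
    · exact mul_nonneg (law_nonneg hp.nonneg A z)
        (H_nonneg (cond_nonneg hp.nonneg A z) (sum_cond p A hz) f)
  have h5 := Finset.single_le_sum hnn hmem
  rw [← h1] at h5
  have h6 : 0 ≤ H (Pool.Agent.H49.Ent.cond p A True) f :=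
    H_nonneg (cond_nonneg hp.nonneg A True) (sum_cond p A hpos.ne') f
  rw [le_div_iff₀ hρ]
  have h7 : ρ * H (Pool.Agent.H49.Ent.cond p A True) f ≤
      law p A True * H (Pool.Agent.H49.Ent.cond p A True) f :=
    mul_le_mul_of_nonneg_right (by linarith only [hA]) h6
  linarith

end

/-- Restriction twice. -/
theorem gge_res {F : Fam m J} {b a v : ℝ} (A B : F.Ω → Prop)
    (h : IsLaw (Pool.Agent.H49.Ent.cond F.p A True))
    (h' : IsLaw (Pool.Agent.H49.Ent.cond (F.res A True h).p B True))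
    (h'' : IsLaw (Pool.Agent.H49.Ent.cond F.p (fun ω => A ω ∧ B ω) True))
    (hG : Gge (F.res (fun ω => A ω ∧ B ω) True h'') b a v) :
    Gge ((F.res A True h).res B True h') b a v := by
  intro L
  have h1 := hG ⟨L.k, L.M, L.le, L.bd, L.inv⟩
  have e := cond_and F.isLaw.nonneg A B
  have key : ∀ (q q' : F.Ω → ℝ), q = q' → ∀ (lb : F.Ω → ((Fin m → ℕ) × (Fin m → Fin m → ℝ)) ×
      ((Fin m → ℤ) × (Fin m → ℤ))) (k : F.Ω → Fin m → ℕ),
      CH q' lb F.Z + (∑ ω, q' ω * ∑ i, ((J : ℝ) - k ω i)) * Real.log 2 -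
        a * CH q' (F.X J) F.W =
      CH q lb F.Z + (∑ ω, q ω * ∑ i, ((J : ℝ) - k ω i)) * Real.log 2 -
        a * CH q (F.X J) F.W := by
    intro q q' h _ _
    rw [h]
  have h2 := key _ _ e (fun ω => ((L.k ω, L.M ω),
    (flk (L.k ω) (mco (L.M ω) (F.u ω)), flk (L.k ω) (mco (L.M ω) (F.d ω))))) L.k
  exact h1.trans (le_of_eq h2)

/-- Uniform maximality of a part of positive probability. -/
theorem uml_res {F : Fam m J} {b a R τ τ' ρ : ℝ} (hρ : 0 < ρ)
    (hτ : τ * J + Real.log (1 / ρ) ≤ τ' * J) (hU : Uml F b a R τ) (A : F.Ω → Prop)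
    (hA : ρ ≤ Pe F.p A) (h : IsLaw (Pool.Agent.H49.Ent.cond F.p A True)) :
    Uml (F.res A True h) b a R τ' := by
  intro B h'
  have hp := F.isLaw.nonneg
  have h0 : Pe (F.res A True h).p B = Pe (Pool.Agent.H49.Ent.cond F.p A True) B := rfl
  have h1 := Pe_and F.isLaw A B
  -- the probability of the second event is positive
  have hB0 : 0 < Pe (Pool.Agent.H49.Ent.cond F.p A True) B := by
    rcases (Pe_nonneg h B).eq_or_lt with h2 | h2
    · exfalso
      have h3 : law (Pool.Agent.H49.Ent.cond F.p A True) B True = 0 := h2.symm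
      have h4 := h'.sum_one
      have h5 : ∀ ω, Pool.Agent.H49.Ent.cond (F.res A True h).p B True ω = 0 := by
        intro ω
        change Pool.Agent.H49.Ent.cond (Pool.Agent.H49.Ent.cond F.p A True) B True ω = 0
        unfold Pool.Agent.H49.Ent.cond at h3 ⊢
        rw [h3]
        split_ifs <;> simp
      rw [Finset.sum_eq_zero fun ω _ => h5 ω] at h4
      exact zero_ne_one h4
    · exact h2
  have hAB : 0 < Pe F.p (fun ω => A ω ∧ B ω) := by
    rw [← h1]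
    exact mul_pos hB0 (hρ.trans_le hA)
  have h'' : IsLaw (Pool.Agent.H49.Ent.cond F.p (fun ω => A ω ∧ B ω) True) := by
    exact ⟨cond_nonneg hp _ _, sum_cond F.p _ hAB.ne'⟩
  refine gge_res A B h h' h'' ((hU _ h'').mono ?_)
  rw [h0, ← h1, Real.log_mul hB0.ne' (hρ.trans_le hA).ne']
  have h2 : -Real.log (1 / ρ) ≤ Real.log (Pe F.p A) := by
    rw [one_div, Real.log_inv, neg_neg]
    exact Real.log_le_log hρ hA
  have h3 : (R - τ') * J = (R - τ) * J + (τ * J - τ' * J) := by ring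
  rw [h3]
  linarith only [hτ, h2]

/-- The entropy of the positions in nearly maximal families. -/
theorem ch_x {F : Fam m J} {b a R τ C : ℝ} (hτ : τ ≤ R) (hF : Mxl F b a R τ)
    (hT : Gle F b 1 (m * (J * Real.log 2) +
      (CH F.p F.T F.Z - CH F.p F.T (fun ω => (F.l ω, F.Z ω))) + C)) :
    (a - 1) * CH F.p (F.X J) F.W ≤ m * (J * Real.log 2) + τ * J + C := by
  obtain ⟨B, hB⟩ := hT
  have h1 := hF.2 B
  have h2 := hF.1
  unfold Fam.Tm at h2
  have h3 := REX.T_le F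
  have h4 : 0 ≤ (R - τ) * J := mul_nonneg (by linarith only [hτ]) (Nat.cast_nonneg J)
  linarith only [hB, h1, h2, h3, h4]

end REXL

open REXL in
open Classical in
/-- **(REXL)** -/
theorem rexl (hMIX : MIXLStmt) (hTRV : TRVLStmt) (hUPR : UPRStmt) (hUMX : UMXStmt) :
    REXLStmt := by
  intro m b a R hb ha hR hUB hLB τ hτ J₀
  have ha1 : 1 ≤ a := ha.le
  have haa : 0 < a - 1 := by linarith only [ha]
  obtain ⟨C₁, hC₁, hrnd⟩ := rnd_max m b
  obtain ⟨C₂, hC₂, htrv⟩ := hTRV m b hb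
  have hl2 : 0 < Real.log 2 := Real.log_pos (by norm_num)
  set L : ℝ := m * Real.log 2 with hL
  have hL0 : 0 ≤ L := mul_nonneg (Nat.cast_nonneg m) hl2.le
  set M₀ : ℝ := (L + R + C₂) / (a - 1) with hM₀
  have hM₀0 : 0 ≤ M₀ := by positivity
  set B₂ : ℝ := M₀ + 4 * L + C₁ + Real.log 2 + 1 with hB₂
  have hB₂0 : 0 < B₂ := by positivity
  obtain ⟨M, hM⟩ := rty_thm 5 (B₂ / (1 / 4)) (τ / 2) (1 / 2) (by positivity) (by positivity)
    (by norm_num)
  have hMp : (0 : ℝ) < 2 * ((M : ℝ) + 1) := by positivity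
  set ρ : ℝ := 1 / (2 * ((M : ℝ) + 1)) with hρ
  have hρ0 : 0 < ρ := by positivity
  obtain ⟨τ₁, hτ₁, J₁, hUPR⟩ := hUPR m b a R hb ha1 hR hUB ρ hρ0 τ hτ
  set τu : ℝ := min τ₁ (τ / 2) with hτu
  have hτu0 : 0 < τu := lt_min hτ₁ (by positivity)
  obtain ⟨τ₂, hτ₂, J₂, hUMX⟩ := hUMX m b a R hb ha1 hR hUB τu hτu0
  set τ' : ℝ := min (τ₂ / 2) R with hτ'
  have hτ'0 : 0 < τ' := lt_min (by positivity) hR
  have hτ'1 : τ' ≤ τ₂ / 2 := min_le_left _ _
  have hτ'R : τ' ≤ R := min_le_right _ _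
  obtain ⟨τ₀, hτ₀, J₃, hMZ⟩ := mzvl hMIX hTRV m b a R hb ha1 hR τ' hτ'0
  obtain ⟨J₄, hJ₄⟩ := exists_nat_ge (2 * ((1 + a) * C₁) / τ₂)
  obtain ⟨J₅, hJ₅⟩ := exists_nat_ge (Real.log (1 / ρ) / (τ / 2))
  obtain ⟨J, hJ, F₀, hT₀, hG₀⟩ := hLB τ₀ hτ₀ τ₀ hτ₀ (J₀ + J₁ + J₂ + J₃ + J₄ + J₅ + 1)
  have hJr : (1 : ℝ) ≤ J := by exact_mod_cast (by omega : 1 ≤ J)
  have hJp : (0 : ℝ) < J := by linarith only [hJr]
  have hJ4r : (J₄ : ℝ) ≤ J := by exact_mod_cast (by omega : J₄ ≤ J)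
  have hJ5r : (J₅ : ℝ) ≤ J := by exact_mod_cast (by omega : J₅ ≤ J)
  obtain ⟨K, c, k, hk, hMx1, hTr1⟩ := hMZ J (by omega) F₀ ⟨hT₀, hG₀⟩
  set F₁ := F₀.res c k hk with hF₁
  obtain ⟨hr1, hr2, hr3, hr4⟩ := hrnd J F₁ a (τ' * J) ((R - τ') * J) (by linarith only [ha]) hMx1.1 hMx1.2
  have hTr2 : F₁.rnd.Tr := hTr1
  have hJt : (1 + a) * C₁ ≤ τ₂ / 2 * J := by
    have := hJ₄.trans hJ4r
    rw [div_le_iff₀ hτ₂] at this
    linarith only [this]
  have hMx2 : Mxl F₁.rnd b a R τ₂ := by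
    have h2 : τ' * (J : ℝ) ≤ τ₂ / 2 * J := mul_le_mul_of_nonneg_right hτ'1 hJp.le
    refine ⟨?_, hr2.mono ?_⟩
    · have h1 : (J : ℝ) * Real.log 2 - τ' * J ≤
          CH F₁.rnd.p F₁.rnd.T (fun ω => (F₁.rnd.l ω, F₁.rnd.Z ω)) := hr1
      change (J : ℝ) * Real.log 2 - τ₂ * J ≤ _
      nlinarith only [h2, h1, hτ₂]
    · nlinarith only [hJt, h2]
  -- entropies
  have hdir : ∀ G : Fam m J, CH G.p (G.D J) G.Z ≤ 4 * L * J := by
    intro G
    have h1 := aex_dir G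
    have h2 : (m : ℝ) * (((J : ℝ) + 3) * Real.log 2) = L * (J + 3) := by rw [hL]; ring
    rw [h2] at h1
    nlinarith only [h1, hL0, hJr]
  have hX1 : CH F₁.p (F₁.X J) F₁.W ≤ M₀ * J := by
    have h1 := ch_x hτ'R hMx1 (htrv J F₁ 1 le_rfl)
    rw [hM₀, div_mul_eq_mul_div, le_div_iff₀ haa]
    have h2 : (m : ℝ) * (J * Real.log 2) = L * J := by rw [hL]; ring
    have h3 : τ' * (J : ℝ) ≤ R * J := mul_le_mul_of_nonneg_right hτ'R hJp.le
    have h4 : C₂ ≤ C₂ * J := by nlinarith only [hC₂, hJr]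
    rw [h2] at h1
    nlinarith only [h1, h3, h4]
  have hX2 : CH F₁.rnd.p (F₁.rnd.X J) F₁.rnd.W ≤ M₀ * J + C₁ := by
    have h1 : CH F₁.rnd.p (F₁.rnd.X J) F₁.rnd.W ≤ CH F₁.p (F₁.X J) F₁.W + C₁ := hr3
    linarith only [hX1, h1]
  have hl : CH F₁.rnd.p F₁.rnd.l F₁.rnd.W ≤ M₀ * J + 4 * L * J + C₁ := by
    have h1 : CH F₁.rnd.p F₁.rnd.l F₁.rnd.W ≤
      CH F₁.p (F₁.X J) F₁.W + CH F₁.p (F₁.D J) F₁.Z + C₁ := hr4
    linarith only [hX1, h1, hdir, hdir F₁]
  have hLJ : 0 ≤ L * J := mul_nonneg hL0 hJp.le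
  have hM₀J : 0 ≤ M₀ * J := mul_nonneg hM₀0 hJp.le
  have hlJ : 0 ≤ Real.log 2 * J := mul_nonneg hl2.le hJp.le
  have hCJ : C₁ ≤ C₁ * J := by nlinarith only [hC₁, hJr]
  have hBJ : B₂ * J = M₀ * J + 4 * (L * J) + C₁ * J + Real.log 2 * J + J := by
    rw [hB₂]
    ring
  have hbd : ∀ i, H F₁.rnd.p (REX.lst F₁.rnd i) ≤ B₂ * J := by
    intro i
    refine (REX.H_le hTr2 _).trans ?_
    rw [hBJ]
    match i with
    | 0 =>
      have h1 : CH F₁.rnd.p (F₁.rnd.D J) F₁.rnd.Z ≤ 4 * L * J := hdir F₁.rnd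
      change CH F₁.rnd.p (F₁.rnd.D J) F₁.rnd.Z ≤ _
      nlinarith only [hC₁, hJr, hM₀J, hlJ, hCJ, h1]
    | 1 =>
      have h1 := REX.pair_le F₁.rnd (F₁.rnd.X J)
      change CH F₁.rnd.p (fun ω => (F₁.rnd.X J ω, F₁.rnd.T ω)) F₁.rnd.Z ≤ _
      nlinarith only [hJr, hX2, hLJ, hCJ, h1]
    | 2 =>
      have h1 := REX.T_le F₁.rnd
      change CH F₁.rnd.p F₁.rnd.T F₁.rnd.Z ≤ _
      nlinarith only [hC₁, hJr, hLJ, hM₀J, hCJ, h1]
    | 3 =>
      have h1 := REX.pair_le F₁.rnd F₁.rnd.l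
      change CH F₁.rnd.p (fun ω => (F₁.rnd.l ω, F₁.rnd.T ω)) F₁.rnd.Z ≤ _
      nlinarith only [hJr, hl, hCJ, h1]
    | 4 =>
      have h1 := REX.pair_le F₁.rnd F₁.rnd.l
      have h2 : CH F₁.rnd.p F₁.rnd.l F₁.rnd.Z ≤
          CH F₁.rnd.p (fun ω => (F₁.rnd.l ω, F₁.rnd.T ω)) F₁.rnd.Z :=
        CH_mono_left F₁.rnd.isLaw.nonneg fun ω ω' _ _ e =>
          (Prod.ext_iff.1 (Prod.ext_iff.1 e).1).1
      change CH F₁.rnd.p F₁.rnd.l F₁.rnd.Z ≤ _
      nlinarith only [hJr, hl, hCJ, h1, h2]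
  -- the uniformly maximal part
  obtain ⟨A, hA, hPA, hUA, hMA⟩ := hUMX J (by omega) F₁.rnd hMx2
  set F₃ := F₁.rnd.res A True hA with hF₃
  have hbd3 : ∀ i, H F₃.p (REX.lst F₁.rnd i) ≤ B₂ / (1 / 4) * J := by
    intro i
    have h1 := H_cond_le F₁.rnd.isLaw A (by norm_num : (0 : ℝ) < 1 / 4) hPA
      (REX.lst F₁.rnd i) (hbd i)
    rw [div_mul_eq_mul_div]
    exact h1
  -- the regular type
  obtain ⟨t, bad, hbad, ht⟩ := hM J (by omega) F₃.Ω (REX.S m) F₃.p F₃.isLaw (REX.lst F₁.rnd) hbd3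
  obtain ⟨k', hk', hkp⟩ : ∃ k', k' ≠ bad ∧ ρ ≤ law F₃.p t k' := by
    by_contra hcon
    push Not at hcon
    have h1 : ∑ k', law F₃.p t k' = 1 := law_sum_one F₃.isLaw t
    have h2 : ∑ k', law F₃.p t k' = law F₃.p t bad + ∑ k' ∈ univ.erase bad, law F₃.p t k' := by
      rw [Finset.add_sum_erase _ _ (Finset.mem_univ bad)]
    have h3 : ∑ k' ∈ univ.erase bad, law F₃.p t k' ≤
        ∑ k' ∈ (univ : Finset (Fin M)).erase bad, ρ :=
      Finset.sum_le_sum fun k' hk' => (hcon k' (Finset.ne_of_mem_erase hk')).le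
    rw [Finset.sum_const, nsmul_eq_mul] at h3
    have h4 : (((univ : Finset (Fin M)).erase bad).card : ℝ) ≤ M := by
      have : ((univ : Finset (Fin M)).erase bad).card ≤ (univ : Finset (Fin M)).card :=
        Finset.card_le_card (Finset.erase_subset _ _)
      rw [Finset.card_univ, Fintype.card_fin] at this
      exact_mod_cast this
    have h5 : (((univ : Finset (Fin M)).erase bad).card : ℝ) * ρ ≤ M * ρ :=
      mul_le_mul_of_nonneg_right h4 hρ0.le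
    have h6 : (M : ℝ) * ρ < 1 / 2 := by
      rw [hρ, mul_one_div, div_lt_div_iff₀ hMp (by norm_num)]
      linarith only
    linarith only [hbad, h1, h2, h3, h5, h6]
  have hlogρ : Real.log (1 / ρ) ≤ τ / 2 * J := by
    have := hJ₅.trans hJ5r
    rw [div_le_iff₀ (by positivity)] at this
    linarith only [this]
  have hexp : Real.exp (-(τ / 2 * J)) ≤ ρ := by
    rw [← Real.le_log_iff_exp_le hρ0]
    rw [one_div, Real.log_inv] at hlogρ
    linarith only [hlogρ]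
  have hPe : ρ ≤ Pe F₃.p (fun ω => t ω = k') := by
    have h1 : Pe F₃.p (fun ω => t ω = k') = law F₃.p t k' := RMX.law_prop F₃.p t k'
    rw [h1]
    exact hkp
  obtain ⟨h4, hMx4⟩ := hUPR J (by omega) F₃ (hMA.mono' (min_le_left _ _)) (fun ω => t ω = k') hPe
  refine ⟨J, by omega, F₃.res (fun ω => t ω = k') True h4, ?_, hMx4.1, ?_, ?_⟩
  · obtain ⟨z', hz'⟩ := hTr2
    have hc0 : ∀ (q : F₁.Ω → ℝ) (E : F₁.Ω → Prop) (ω : F₁.Ω), q ω = 0 →
        Pool.Agent.H49.Ent.cond q E True ω = 0 := by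
      intro q E ω h0
      unfold Pool.Agent.H49.Ent.cond
      split_ifs
      · rw [h0, zero_div]
      · rfl
    refine ⟨z', fun ω hω => hz' ω fun h0 => hω ?_⟩
    change Pool.Agent.H49.Ent.cond (Pool.Agent.H49.Ent.cond F₁.p A True)
      (fun ω => t ω = k') True ω = 0
    exact hc0 _ _ _ (hc0 _ _ _ h0)
  · refine uml_res hρ0 ?_ hUA _ hPe h4
    have h1 : τu * (J : ℝ) ≤ τ / 2 * J := mul_le_mul_of_nonneg_right (min_le_right _ _) hJp.le
    linarith only [hlogρ, h1]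
  · have hreg : ∀ i, ∃ h', Rg (Pool.Agent.H49.Ent.cond F₃.p (fun ω => t ω = k') True)
        (REX.lst F₁.rnd i) h' (τ * J) := by
      intro i
      obtain ⟨h', hR'⟩ := ht k' hk' (hexp.trans hkp) i
      refine ⟨h', ?_⟩
      rw [RMX.cond_prop]
      have e1 : 2 * (τ / 2) * (J : ℝ) = τ * J := by ring
      rwa [e1] at hR'
    exact ⟨hreg 0, hreg 1, hreg 2, hreg 3, hreg 4⟩

end Pool.LK
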