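import Pool.Agent.H53.LK.Rnd
import Pool.Agent.H13.K2.MZV

/-!
# Labels: one value of the side information
-/

set_option autoImplicit false

namespace Pool.LK

open Finset Real
open Pool.Agent.H49.Ent Pool.Agent.H32.Dense Pool.STK Pool.KA Pool.KSAT Pool.K2S

variable {m J : ℕ}

section

variable {Ω S W K : Type} [Fintype Ω] [Fintype K]

/-- Conditional entropy as an average over a variable which is a function of the condition. -/
theorem ch_avg {p : Ω → ℝ} (hp : ∀ ω, 0 ≤ p ω) (X : Ω → S) (Y : Ω → W) (c : Ω → K)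
    (hc : Det p Y c) : CH p X Y = ∑ k, law p c k * CH (Pool.Agent.H49.Ent.cond p c k) X Y := by
  classical
  have h1 : CH p X Y = CH p (fun ω => (X ω, Y ω)) c - CH p Y c := by
    unfold CH
    have e1 : H p (fun ω => ((X ω, Y ω), c ω)) = H p (fun ω => (X ω, Y ω)) := by
      refine H_congr hp ?_ ?_
      · intro ω ω' h1 h2 h
        exact Prod.ext h (hc ω ω' h1 h2 (Prod.ext_iff.1 h).2)
      · intro ω ω' _ _ h
        exact (Prod.ext_iff.1 h).1
    have e2 : H p (fun ω => (Y ω, c ω)) = H p Y := by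
      refine H_congr hp ?_ ?_
      · intro ω ω' h1 h2 h
        exact Prod.ext h (hc ω ω' h1 h2 h)
      · intro ω ω' _ _ h
        exact (Prod.ext_iff.1 h).1
    rw [e1, e2]
    ring
  have h2 : ∀ (U : Type) (f : Ω → U), CH p f c =
      ∑ k, law p c k * H (Pool.Agent.H49.Ent.cond p c k) f := by
    intro U f
    rw [CH_eq_sum hp]
    refine Finset.sum_subset (Finset.subset_univ _) fun k _ hk => ?_
    rw [law_eq_zero_of_notMem p c hk, zero_mul]
  rw [h1, h2, h2, ← Finset.sum_sub_distrib]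
  refine Finset.sum_congr rfl fun k _ => ?_
  rw [← mul_sub]
  rfl

theorem law_sum_one {p : Ω → ℝ} (hp : IsLaw p) (c : Ω → K) : ∑ k, law p c k = 1 := by
  classical
  have h := sum_law p c
  rw [hp.sum_one] at h
  rw [← h]
  symm
  refine Finset.sum_subset (Finset.subset_univ _) fun k _ hk => ?_
  exact law_eq_zero_of_notMem p c hk

end

open Classical in
/-- One value of the side information. -/
theorem mzvl (hMIX : MIXLStmt) (hTRV : TRVLStmt) (m : ℕ) (b a R : ℝ) (hb : 1 ≤ b) (ha : 1 ≤ a)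
    (hR : 0 < R) (τ' : ℝ) (hτ' : 0 < τ') : ∃ τ > 0, ∃ J₁ : ℕ, ∀ J ≥ J₁, ∀ F : Fam m J,
      Mxl F b a R τ → ∃ (K : Type) (c : F.Ω → K) (k : K)
        (h : IsLaw (Pool.Agent.H49.Ent.cond F.p c k)),
        Mxl (F.res c k h) b a R τ' ∧ (F.res c k h).Tr := by
  obtain ⟨C, hC0, hC⟩ := hTRV m b hb
  have hl2 : 0 ≤ Real.log 2 := Real.log_nonneg (by norm_num)
  set K₀ : ℝ := m * Real.log 2 + C + 2 * τ' with hK
  have hK0 : 0 < K₀ := by positivity
  have hKτ : 2 * τ' ≤ K₀ := by
    have : 0 ≤ m * Real.log 2 := mul_nonneg (Nat.cast_nonneg m) hl2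
    linarith
  set τ : ℝ := min (τ' / 4) (τ' * τ' / (4 * K₀)) with hτ
  have hτ0 : 0 < τ := lt_min (by positivity) (by positivity)
  have hτ1 : τ ≤ τ' / 4 := min_le_left _ _
  have hτ2 : τ * K₀ ≤ τ' * τ' / 4 := by
    have h1 : τ ≤ τ' * τ' / (4 * K₀) := min_le_right _ _
    rw [le_div_iff₀ (by positivity)] at h1
    linarith
  refine ⟨τ, hτ0, 1, fun J hJ F hF => ?_⟩
  have hJ0 : (0 : ℝ) < J := by exact_mod_cast hJ
  have hJ1 : (1 : ℝ) ≤ J := by exact_mod_cast hJ
  obtain ⟨hT, hG⟩ := hF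
  have hp := F.isLaw.nonneg
  -- the values of the side information
  set c : F.Ω → {z : F.ζ // z ∈ univ.image F.Z} := fun ω =>
    ⟨F.Z ω, Finset.mem_image_of_mem _ (Finset.mem_univ _)⟩ with hc
  have hlaw : ∀ k, law F.p c k ≠ 0 → IsLaw (Pool.Agent.H49.Ent.cond F.p c k) := fun k hk =>
    ⟨cond_nonneg hp c k, sum_cond F.p c hk⟩
  have hTr : ∀ k (h : IsLaw (Pool.Agent.H49.Ent.cond F.p c k)), (F.res c k h).Tr := by
    intro k h
    refine ⟨k.1, fun ω hω => ?_⟩
    have h1 : 0 < Pool.Agent.H49.Ent.cond F.p c k ω :=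
      lt_of_le_of_ne (cond_nonneg hp c k ω) (Ne.symm hω)
    have h2 := ((cond_pos_iff hp c k ω).mp h1).2
    exact congrArg Subtype.val h2
  by_contra hcon
  push Not at hcon
  have hbad : ∀ k (h : IsLaw (Pool.Agent.H49.Ent.cond F.p c k)),
      ¬ Mxl (F.res c k h) b a R τ' := fun k h hM => hcon _ c k h hM (hTr k h)
  set E : {z : F.ζ // z ∈ univ.image F.Z} → ℝ := fun k => J * Real.log 2 -
    CH (Pool.Agent.H49.Ent.cond F.p c k) F.T (fun ω => (F.l ω, F.Z ω)) with hE
  have hE0 : ∀ k, law F.p c k ≠ 0 → 0 ≤ E k := by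
    intro k hk
    have := TRC.CH_lt (hlaw k hk) F.T (fun ω => (F.l ω, F.Z ω)) J F.tim
    simp only [hE]
    linarith
  -- each value
  have hval : ∀ k (hk : law F.p c k ≠ 0), ∃ B : Lbl (F.res c k (hlaw k hk)) b,
      B.cost ≤ a * CH (Pool.Agent.H49.Ent.cond F.p c k) (F.X J) F.W + (R - τ') * J +
        K₀ / τ' * E k := by
    intro k hk
    have hKE : 0 ≤ K₀ / τ' * E k := mul_nonneg (by positivity) (hE0 k hk)
    by_cases hgood : E k ≤ τ' * J
    · have h1 : ¬ Gge (F.res c k (hlaw k hk)) b a ((R - τ') * J) := by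
        intro h2
        refine hbad k (hlaw k hk) ⟨?_, h2⟩
        change (J : ℝ) * Real.log 2 - τ' * J ≤
          CH (Pool.Agent.H49.Ent.cond F.p c k) F.T (fun ω => (F.l ω, F.Z ω))
        simp only [hE] at hgood
        linarith
      unfold Gge at h1
      push Not at h1
      obtain ⟨B, hB⟩ := h1
      refine ⟨B, ?_⟩
      have h3 : (F.res c k (hlaw k hk)).p = Pool.Agent.H49.Ent.cond F.p c k := rfl
      have h4 : CH (F.res c k (hlaw k hk)).p ((F.res c k (hlaw k hk)).X J)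
        (F.res c k (hlaw k hk)).W = CH (Pool.Agent.H49.Ent.cond F.p c k) (F.X J) F.W := rfl
      rw [h4] at hB
      linarith
    · push Not at hgood
      obtain ⟨B, hB⟩ := hC J (F.res c k (hlaw k hk)) a ha
      refine ⟨B, ?_⟩
      have h4 : CH (F.res c k (hlaw k hk)).p ((F.res c k (hlaw k hk)).X J)
        (F.res c k (hlaw k hk)).W = CH (Pool.Agent.H49.Ent.cond F.p c k) (F.X J) F.W := rfl
      have h5 : CH (F.res c k (hlaw k hk)).p (F.res c k (hlaw k hk)).T
        (F.res c k (hlaw k hk)).Z ≤ J * Real.log 2 :=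
        TRC.CH_lt (hlaw k hk) F.T F.Z J F.tim
      have h6 : J * Real.log 2 - CH (F.res c k (hlaw k hk)).p (F.res c k (hlaw k hk)).T
        (fun ω => ((F.res c k (hlaw k hk)).l ω, (F.res c k (hlaw k hk)).Z ω)) = E k := rfl
      rw [h4] at hB
      have h7 : (K₀ / τ' - 1) * (τ' * J) ≤ (K₀ / τ' - 1) * E k := by
        refine mul_le_mul_of_nonneg_left hgood.le ?_
        rw [sub_nonneg, le_div_iff₀ hτ']
        linarith
      have h8 : (K₀ / τ' - 1) * (τ' * J) = (K₀ - τ') * J := by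
        field_simp
      have h9 : C ≤ C * J := by nlinarith
      have h10 : 0 ≤ R * J := by positivity
      have h11 : (K₀ - τ') * J = m * (J * Real.log 2) + C * J + τ' * J := by
        rw [hK]
        ring
      nlinarith
  choose B hB using hval
  obtain ⟨B', hB'⟩ := hMIX m b J F _ c hlaw B
  -- averages
  have hdet : Det F.p F.Z c := by
    intro ω ω' _ _ h
    exact Subtype.ext h
  have s0 : CH F.p c F.Z = 0 := CH_eq_zero hp hdet
  have s1 : ∑ k, law F.p c k = 1 := law_sum_one F.isLaw c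
  have s2 : ∑ k, law F.p c k * E k ≤ τ * J := by
    have h1 := ch_avg hp F.T (fun ω => (F.l ω, F.Z ω)) c (fun ω ω' a b h =>
      hdet ω ω' a b (Prod.ext_iff.1 h).2)
    unfold Fam.Tm at hT
    rw [h1] at hT
    have h2 : ∑ k, law F.p c k * E k = J * Real.log 2 -
        ∑ k, law F.p c k *
          CH (Pool.Agent.H49.Ent.cond F.p c k) F.T (fun ω => (F.l ω, F.Z ω)) := by
      simp only [hE, mul_sub, Finset.sum_sub_distrib, ← Finset.sum_mul, s1, one_mul]
    rw [h2]
    linarith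
  have s3 : CH F.p (F.X J) F.W =
      ∑ k, law F.p c k * CH (Pool.Agent.H49.Ent.cond F.p c k) (F.X J) F.W :=
    ch_avg hp (F.X J) F.W c (fun ω ω' a b h => hdet ω ω' a b (Prod.ext_iff.1 h).2)
  have s4 : ∑ k, law F.p c k * (if hk : law F.p c k ≠ 0 then (B k hk).cost else 0) ≤
      ∑ k, law F.p c k * (a * CH (Pool.Agent.H49.Ent.cond F.p c k) (F.X J) F.W +
        (R - τ') * J + K₀ / τ' * E k) := by
    refine Finset.sum_le_sum fun k _ => ?_
    by_cases hk : law F.p c k ≠ 0
    · rw [dif_pos hk]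
      exact mul_le_mul_of_nonneg_left (hB k hk) (law_nonneg hp c k)
    · rw [dif_neg hk, mul_zero]
      have h1 : law F.p c k = 0 := not_not.1 hk
      rw [h1, zero_mul]
  have s5 : ∑ k, law F.p c k * (a * CH (Pool.Agent.H49.Ent.cond F.p c k) (F.X J) F.W +
        (R - τ') * J + K₀ / τ' * E k) = a * CH F.p (F.X J) F.W + (R - τ') * J +
        K₀ / τ' * ∑ k, law F.p c k * E k := by
    rw [s3, Finset.mul_sum, Finset.mul_sum]
    simp only [mul_add, Finset.sum_add_distrib, ← Finset.sum_mul, s1, one_mul]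
    congr 1
    · congr 1
      exact Finset.sum_congr rfl fun k _ => by ring
    · exact Finset.sum_congr rfl fun k _ => by ring
  have s6 : K₀ / τ' * ∑ k, law F.p c k * E k ≤ τ' / 4 * J := by
    have h1 : K₀ / τ' * ∑ k, law F.p c k * E k ≤ K₀ / τ' * (τ * J) :=
      mul_le_mul_of_nonneg_left s2 (by positivity)
    refine h1.trans ?_
    have h2 : K₀ / τ' * (τ * J) = τ * K₀ / τ' * J := by ring
    rw [h2]
    refine mul_le_mul_of_nonneg_right ?_ hJ0.le
    rw [div_le_iff₀ hτ']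
    linarith
  have s7 := hG B'
  rw [s0, zero_add] at hB'
  nlinarith

end Pool.LK
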