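import Pool.Agent.H13.LK.Stmts
import Pool.Agent.H5.K2.MRN

/-!
# Labels of rounded lines
-/

set_option autoImplicit false

namespace Pool.LK

open Finset Real
open Pool.Agent.H49.Ent Pool.Agent.H32.Dense Pool.STK Pool.KA Pool.KSAT Pool.K2S

variable {m J : ℕ}

namespace RND

/-- The label of the original lines. -/
noncomputable def up {F : Fam m J} {b : ℝ} (B : Lbl F.rnd b) : Lbl F b where
  k := B.k
  M := B.M
  le := B.le
  bd := B.bd
  inv := B.inv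

lemma close {J : ℕ} (k : Fin m → ℕ) (hk : ∀ i, k i ≤ J) (M : Fin m → Fin m → ℝ) {b : ℝ}
    (hM : ∀ i j, |M i j| ≤ b) (x : Fin m → ℝ) (i : Fin m) :
    |2 ^ k i * mco M x i - 2 ^ k i * mco M (fun j => (⌊(2 : ℝ) ^ J * x j⌋ : ℝ) / 2 ^ J) i| ≤
      m * b := by
  have hp : (0 : ℝ) < 2 ^ J := by positivity
  have e1 : 2 ^ k i * mco M x i - 2 ^ k i * mco M (fun j => (⌊(2 : ℝ) ^ J * x j⌋ : ℝ) / 2 ^ J) i =
      ∑ j, 2 ^ k i * (M i j * (x j - (⌊(2 : ℝ) ^ J * x j⌋ : ℝ) / 2 ^ J)) := by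
    unfold mco
    rw [← mul_sub, ← Finset.sum_sub_distrib, Finset.mul_sum]
    exact Finset.sum_congr rfl fun j _ => by ring
  rw [e1]
  refine (Finset.abs_sum_le_sum_abs _ _).trans ?_
  have e2 : ∀ j ∈ (univ : Finset (Fin m)),
      |2 ^ k i * (M i j * (x j - (⌊(2 : ℝ) ^ J * x j⌋ : ℝ) / 2 ^ J))| ≤ b := by
    intro j _
    have hb : 0 ≤ b := (abs_nonneg _).trans (hM i j)
    have h1 : |x j - (⌊(2 : ℝ) ^ J * x j⌋ : ℝ) / 2 ^ J| ≤ 1 / 2 ^ J := by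
      have h2 := Int.floor_le ((2 : ℝ) ^ J * x j)
      have h3 := Int.lt_floor_add_one ((2 : ℝ) ^ J * x j)
      have h4 : x j - (⌊(2 : ℝ) ^ J * x j⌋ : ℝ) / 2 ^ J =
          (2 ^ J * x j - ⌊(2 : ℝ) ^ J * x j⌋) / 2 ^ J := by
        field_simp
      rw [h4, abs_div, abs_of_pos hp]
      refine div_le_div_of_nonneg_right ?_ hp.le
      rw [abs_le]
      constructor <;> linarith
    rw [abs_mul, abs_mul, abs_of_pos (by positivity : (0 : ℝ) < 2 ^ k i)]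
    have h5 : |M i j| * |x j - (⌊(2 : ℝ) ^ J * x j⌋ : ℝ) / 2 ^ J| ≤ b * (1 / 2 ^ J) :=
      mul_le_mul (hM i j) h1 (abs_nonneg _) hb
    have h6 : (2 : ℝ) ^ k i ≤ 2 ^ J := pow_le_pow_right₀ (by norm_num) (hk i)
    calc 2 ^ k i * (|M i j| * |x j - (⌊(2 : ℝ) ^ J * x j⌋ : ℝ) / 2 ^ J|) ≤
        2 ^ J * (b * (1 / 2 ^ J)) := mul_le_mul h6 h5 (by positivity) (by positivity)
      _ = b := by field_simp
  refine (Finset.sum_le_sum e2).trans (le_of_eq ?_)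
  rw [Finset.sum_const, Finset.card_univ, Fintype.card_fin, nsmul_eq_mul]

lemma floors {x y x' y' c : ℝ} (h : ⌊x⌋ = ⌊y⌋) (h1 : |x' - x| ≤ c) (h2 : |y' - y| ≤ c) :
    |((⌊x'⌋ - ⌊y'⌋ : ℤ) : ℝ)| ≤ 2 * c + 2 := by
  have a1 := Int.floor_le x
  have a2 := Int.lt_floor_add_one x
  have b1 := Int.floor_le y
  have b2 := Int.lt_floor_add_one y
  have a1' := Int.floor_le x'
  have a2' := Int.lt_floor_add_one x'
  have b1' := Int.floor_le y'
  have b2' := Int.lt_floor_add_one y'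
  rw [abs_le] at h1 h2
  rw [h] at a1 a2
  rw [abs_le]
  push_cast
  constructor <;> linarith [h1.1, h1.2, h2.1, h2.2]

/-- The cost. -/
theorem cost (m : ℕ) (b : ℝ) : ∃ C : ℝ, 0 ≤ C ∧ ∀ (J : ℕ) (F : Fam m J) (B : Lbl F.rnd b),
    (up B).cost ≤ B.cost + C := by
  set L : ℝ := 2 * (m * |b|) + 2 with hL
  have hL0 : 0 ≤ L := by positivity
  refine ⟨2 * (m * Real.log (2 * L + 1)), by
    have : 0 ≤ Real.log (2 * L + 1) := Real.log_nonneg (by linarith)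
    positivity, ?_⟩
  intro J F B
  have hp := F.isLaw.nonneg
  have hlab : CH F.p (up B).lab F.Z ≤ CH F.p B.lab F.Z + 2 * (m * Real.log (2 * L + 1)) := by
    have h1 := CH_le_add hp (up B).lab B.lab F.Z
    set U : F.Ω → Fin m → ℤ := fun ω => flk (B.k ω) (mco (B.M ω) (F.u ω)) with hU
    set V : F.Ω → Fin m → ℤ := fun ω => flk (B.k ω) (mco (B.M ω) (F.d ω)) with hV
    have h2 : CH F.p (up B).lab (fun ω => (B.lab ω, F.Z ω)) ≤
        CH F.p (fun ω => (U ω, V ω)) (fun ω => (B.lab ω, F.Z ω)) := by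
      refine CH_mono_left hp ?_
      intro ω ω' _ _ h
      obtain ⟨e1, e2⟩ := Prod.ext_iff.1 h
      have e3 : (B.k ω, B.M ω) = (B.k ω', B.M ω') :=
        (Prod.ext_iff.1 (show B.lab ω = B.lab ω' from (Prod.ext_iff.1 e2).1)).1
      exact Prod.ext e3 e1
    have h3 := CH_subadd hp U V (fun ω => (B.lab ω, F.Z ω))
    have key : ∀ y : F.Ω → Fin m → ℝ, (∀ ω ω', B.lab ω = B.lab ω' → ∀ i,
        flk (B.k ω) (mco (B.M ω) fun j => (⌊(2 : ℝ) ^ J * y ω j⌋ : ℝ) / 2 ^ J) i =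
        flk (B.k ω') (mco (B.M ω') fun j => (⌊(2 : ℝ) ^ J * y ω' j⌋ : ℝ) / 2 ^ J) i) →
        CH F.p (fun ω => flk (B.k ω) (mco (B.M ω) (y ω))) (fun ω => (B.lab ω, F.Z ω)) ≤
          m * Real.log (2 * L + 1) := by
      intro y hy
      have h4 := CH_le_vec hp F.isLaw.sum_one (fun ω => flk (B.k ω) (mco (B.M ω) (y ω)))
        (fun ω => (B.lab ω, F.Z ω)) (fun _ => L) (by
          intro ω ω' _ _ h i
          have e1 : B.lab ω = B.lab ω' := (Prod.ext_iff.1 h).1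
          have hb : b ≤ |b| := le_abs_self b
          have hmb : (m : ℝ) * b ≤ m * |b| := mul_le_mul_of_nonneg_left hb (Nat.cast_nonneg m)
          have c1 := (close (B.k ω) (B.le ω) (B.M ω) (B.bd ω) (y ω) i).trans hmb
          have c2 := (close (B.k ω') (B.le ω') (B.M ω') (B.bd ω') (y ω') i).trans hmb
          exact floors (hy ω ω' e1 i) c1 c2)
      rwa [Ex_const F.isLaw.sum_one] at h4
    have h5 := key F.u (by
      intro ω ω' h i
      exact congrFun (Prod.ext_iff.1 (Prod.ext_iff.1 h).2).1 i)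
    have h6 := key F.d (by
      intro ω ω' h i
      exact congrFun (Prod.ext_iff.1 (Prod.ext_iff.1 h).2).2 i)
    linarith
  have e1 : (up B).cost = CH F.p (up B).lab F.Z +
    (∑ ω, F.p ω * ∑ i, ((J : ℝ) - B.k ω i)) * Real.log 2 := rfl
  have e2 : B.cost = CH F.p B.lab F.Z +
    (∑ ω, F.p ω * ∑ i, ((J : ℝ) - B.k ω i)) * Real.log 2 := rfl
  rw [e1, e2]
  linarith

end RND

/-- Rounded lines and maximality. -/
theorem rnd_max (m : ℕ) (b : ℝ) : ∃ C : ℝ, 0 ≤ C ∧ ∀ (J : ℕ) (F : Fam m J) (a e v : ℝ), 0 ≤ a →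
    F.Tm e → Gge F b a v → F.rnd.Tm e ∧ Gge F.rnd b a (v - (1 + a) * C) ∧
    CH F.p (F.rnd.X J) F.W ≤ CH F.p (F.X J) F.W + C ∧
    CH F.p F.rnd.l F.W ≤ CH F.p (F.X J) F.W + CH F.p (F.D J) F.Z + C := by
  obtain ⟨C₁, hC₁, h₁⟩ := RND.cost m b
  obtain ⟨C₂, hC₂, h₂⟩ := mrn_thm m
  refine ⟨C₁ + C₂, by positivity, ?_⟩
  intro J F a e v ha he hv
  obtain ⟨g1, g2, g3⟩ := h₂ J F 1 e (by norm_num) he
  have hX : CH F.p (F.rnd.X J) F.W - CH F.p (F.X J) F.W ≤ C₂ ∧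
      CH F.p (F.X J) F.W - CH F.p (F.rnd.X J) F.W ≤ C₂ := by
    have e1 : F.rnd.Ga 1 - F.Ga 1 = -(CH F.p (F.rnd.X J) F.W - CH F.p (F.X J) F.W) := by
      unfold Fam.Ga
      rw [MRN.D_rnd]
      change CH F.p (F.D J) F.Z - 1 * CH F.p (F.rnd.X J) F.W -
        (CH F.p (F.D J) F.Z - 1 * CH F.p (F.X J) F.W) = _
      ring
    rw [e1, abs_neg, one_mul] at g2
    have := abs_le.1 g2
    constructor <;> linarith [this.1, this.2]
  refine ⟨g1, ?_, by linarith [hX.1], by linarith⟩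
  intro B
  have h3 := hv (RND.up B)
  have h4 := h₁ J F B
  have h5 : a * CH F.rnd.p (F.rnd.X J) F.rnd.W ≤ a * CH F.p (F.X J) F.W + a * C₂ := by
    have h6 : CH F.rnd.p (F.rnd.X J) F.rnd.W ≤ CH F.p (F.X J) F.W + C₂ := by
      have : CH F.rnd.p (F.rnd.X J) F.rnd.W = CH F.p (F.rnd.X J) F.W := rfl
      linarith [hX.1]
    have := mul_le_mul_of_nonneg_left h6 ha
    linarith
  have h6 : 0 ≤ a * C₁ := mul_nonneg ha hC₁
  nlinarith

end Pool.LK
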